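import Pool.Agent.H99.HN.Targets

/-!
`L²` tools for the radial multipliers.
-/

set_option autoImplicit false

namespace Pool.Agent.H46.HN

open Pool.Agent.H99.HM Pool.Agent.H99.HN
open MeasureTheory Set Filter Topology Real
open scoped ContDiff

lemma ae_ne_zero : ∀ᵐ x : E3, x ≠ 0 := by
  have : (volume : Measure E3) {0} = 0 := measure_singleton 0
  rw [ae_iff]
  simp

lemma ae_pos : ∀ᵐ x : E3, 0 < ‖x‖ := by
  filter_upwards [ae_ne_zero] with x hx
  exact norm_pos_iff.2 hx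

/-- radial functions are measurable -/
lemma meas_rad {w : ℝ → ℝ} (hw : ContinuousOn w (Ioi 0)) :
    AEStronglyMeasurable (fun x : E3 => w ‖x‖) volume := by
  have h1 : ContinuousOn (fun x : E3 => w ‖x‖) ({0}ᶜ) := by
    apply hw.comp continuous_norm.continuousOn
    intro x hx
    exact norm_pos_iff.2 hx
  have h2 := h1.aestronglyMeasurable (μ := volume) (measurableSet_singleton (0 : E3)).compl
  rwa [Measure.restrict_eq_self_of_ae_mem (by
    filter_upwards [ae_ne_zero] with x hx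
    exact hx)] at h2

lemma meas_dir (i : Fin 3) : Measurable (fun x : E3 => x i / ‖x‖) := by
  have h1 : Continuous fun x : E3 => x i := by fun_prop
  exact h1.measurable.div measurable_norm

lemma abs_dir_le (i : Fin 3) (x : E3) : |x i / ‖x‖| ≤ 1 := by
  rw [abs_div, abs_norm]
  apply div_le_one_of_le₀ _ (norm_nonneg _)
  have := EuclideanSpace.norm_eq x
  rw [this]
  apply Real.le_sqrt_of_sq_le
  rw [← Real.norm_eq_abs]
  exact Finset.single_le_sum (f := fun i => ‖x i‖ ^ 2) (fun j _ => by positivity)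
    (Finset.mem_univ i)

lemma sum_dir_sq (x : E3) : ∑ i, (x i / ‖x‖) ^ 2 ≤ 1 := by
  by_cases hx : x = 0
  · subst hx
    simp
  · have h0 : 0 < ‖x‖ := norm_pos_iff.2 hx
    have h1 : ‖x‖ ^ 2 = ∑ i, (x i) ^ 2 := by
      rw [EuclideanSpace.norm_eq, Real.sq_sqrt (by positivity)]
      simp
    simp_rw [div_pow]
    rw [← Finset.sum_div, ← h1, div_self (by positivity)]

/-- bounded multiples of `L²` functions -/
lemma MemLp.bdd_mul' {w : E3 → ℝ} {C : ℝ} {f : E3 → ℂ} (hf : MemLp f 2 volume)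
    (hw : AEStronglyMeasurable w volume) (hb : ∀ᵐ x, |w x| ≤ C) :
    MemLp (fun x => (w x : ℂ) * f x) 2 volume := by
  refine MemLp.of_le_mul (c := C) hf ?_ ?_
  · exact (Complex.continuous_ofReal.comp_aestronglyMeasurable hw).mul hf.1
  · filter_upwards [hb] with x hx
    rw [norm_mul, Complex.norm_real, Real.norm_eq_abs]
    exact mul_le_mul_of_nonneg_right hx (norm_nonneg _)

lemma memLp_dr {G : Fin 3 → E3 → ℂ} (hG : ∀ i, MemLp (G i) 2 volume) :
    MemLp (dr G) 2 volume := by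
  have : dr G = fun x => ∑ i, ((x i / ‖x‖ : ℝ) : ℂ) * G i x := rfl
  rw [this]
  apply memLp_finsetSum
  intro i _
  exact MemLp.bdd_mul' (C := 1) (hG i) (meas_dir i).aestronglyMeasurable
    (Eventually.of_forall fun x => abs_dir_le i x)

lemma norm_dr_sq_le (G : Fin 3 → E3 → ℂ) (x : E3) : ‖dr G x‖ ^ 2 ≤ g2 G x := by
  have h1 : ‖dr G x‖ ≤ ∑ i, |x i / ‖x‖| * ‖G i x‖ := by
    refine (norm_sum_le _ _).trans ?_
    apply Finset.sum_le_sum
    intro i _
    rw [norm_mul, Complex.norm_real, Real.norm_eq_abs]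
  have h2 : (∑ i, |x i / ‖x‖| * ‖G i x‖) ^ 2 ≤ (∑ i, |x i / ‖x‖| ^ 2) * ∑ i, ‖G i x‖ ^ 2 :=
    Finset.sum_mul_sq_le_sq_mul_sq _ _ _
  have h3 : ∑ i, |x i / ‖x‖| ^ 2 ≤ 1 := by
    simp_rw [sq_abs]
    exact sum_dir_sq x
  calc ‖dr G x‖ ^ 2 ≤ (∑ i, |x i / ‖x‖| * ‖G i x‖) ^ 2 :=
        pow_le_pow_left₀ (norm_nonneg _) h1 2
    _ ≤ (∑ i, |x i / ‖x‖| ^ 2) * ∑ i, ‖G i x‖ ^ 2 := h2
    _ ≤ 1 * ∑ i, ‖G i x‖ ^ 2 := mul_le_mul_of_nonneg_right h3 (by positivity)
    _ = g2 G x := by rw [one_mul]; rfl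

/-- integrability of weighted products -/
lemma integrable_pair {w : E3 → ℝ} {C : ℝ} {P Q : E3 → ℂ} (hw : AEStronglyMeasurable w volume)
    (hb : ∀ᵐ x, |w x| ≤ C) (hP : MemLp P 2 volume) (hQ : MemLp Q 2 volume) :
    Integrable (fun x => w x * (starRingEnd ℂ (P x) * Q x).re) := by
  have h1 : Integrable (fun x => starRingEnd ℂ (P x) * Q x) := by
    have := MemLp.integrable_mul (p := 2) (q := 2) hP.star hQ
    exact this
  have h2 : Integrable (fun x => (starRingEnd ℂ (P x) * Q x).re) := h1.re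
  exact h2.bdd_mul (c := C) hw (by
    filter_upwards [hb] with x hx
    rwa [Real.norm_eq_abs])

lemma cs_bound {w : E3 → ℝ} {C : ℝ} {P Q : E3 → ℂ} (hC : 0 ≤ C)
    (hb : ∀ᵐ x, |w x| ≤ C) (hP : MemLp P 2 volume) (hQ : MemLp Q 2 volume) :
    |∫ x, w x * (starRingEnd ℂ (P x) * Q x).re| ≤
      C * (√(∫ x, ‖P x‖ ^ 2) * √(∫ x, ‖Q x‖ ^ 2)) := by
  have h1 : Integrable (fun x => ‖P x‖ * ‖Q x‖) := MemLp.integrable_mul hP.norm hQ.norm
  have h2 : |∫ x, w x * (starRingEnd ℂ (P x) * Q x).re| ≤ ∫ x, C * (‖P x‖ * ‖Q x‖) := by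
    rw [← Real.norm_eq_abs]
    apply norm_integral_le_of_norm_le (h1.const_mul C)
    filter_upwards [hb] with x hx
    rw [norm_mul, Real.norm_eq_abs]
    apply mul_le_mul hx _ (norm_nonneg _) hC
    rw [Real.norm_eq_abs]
    refine (Complex.abs_re_le_norm _).trans ?_
    rw [norm_mul, RCLike.norm_conj]
  refine h2.trans ?_
  rw [integral_const_mul]
  apply mul_le_mul_of_nonneg_left _ hC
  have h3 := integral_mul_norm_le_Lp_mul_Lq (μ := (volume : Measure E3)) (f := P) (g := Q)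
    Real.HolderConjugate.two_two (by simpa using hP) (by simpa using hQ)
  rw [Real.sqrt_eq_rpow, Real.sqrt_eq_rpow]
  simpa using h3

/-- continuity of weighted products -/
lemma tendsto_pair {w : E3 → ℝ} {C : ℝ} {P Q : E3 → ℂ} {Pn Qn : ℕ → E3 → ℂ} (hC : 0 ≤ C)
    (hw : AEStronglyMeasurable w volume)
    (hb : ∀ᵐ x, |w x| ≤ C) (hP : MemLp P 2 volume) (hQ : MemLp Q 2 volume)
    (hPn : ∀ n, MemLp (Pn n) 2 volume) (hQn : ∀ n, MemLp (Qn n) 2 volume)
    (tP : Tendsto (fun n => ∫ x, ‖Pn n x - P x‖ ^ 2) atTop (𝓝 0))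
    (tQ : Tendsto (fun n => ∫ x, ‖Qn n x - Q x‖ ^ 2) atTop (𝓝 0)) :
    Tendsto (fun n => ∫ x, w x * (starRingEnd ℂ (Pn n x) * Qn n x).re) atTop
      (𝓝 (∫ x, w x * (starRingEnd ℂ (P x) * Q x).re)) := by
  have dP : ∀ n, MemLp (fun x => Pn n x - P x) 2 volume := fun n => (hPn n).sub hP
  have dQ : ∀ n, MemLp (fun x => Qn n x - Q x) 2 volume := fun n => (hQn n).sub hQ
  have key : ∀ n, (∫ x, w x * (starRingEnd ℂ (Pn n x) * Qn n x).re) =
      (∫ x, w x * (starRingEnd ℂ (P x) * Q x).re)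
      + (∫ x, w x * (starRingEnd ℂ (Pn n x - P x) * (Qn n x - Q x)).re)
      + (∫ x, w x * (starRingEnd ℂ (Pn n x - P x) * Q x).re)
      + ∫ x, w x * (starRingEnd ℂ (P x) * (Qn n x - Q x)).re := by
    intro n
    have i1 := integrable_pair hw hb hP hQ
    have i2 := integrable_pair hw hb (dP n) (dQ n)
    have i3 := integrable_pair hw hb (dP n) hQ
    have i4 := integrable_pair hw hb hP (dQ n)
    have i12 : Integrable (fun x => w x * (starRingEnd ℂ (P x) * Q x).re +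
        w x * (starRingEnd ℂ (Pn n x - P x) * (Qn n x - Q x)).re) := i1.add i2
    have i123 : Integrable (fun x => w x * (starRingEnd ℂ (P x) * Q x).re +
        w x * (starRingEnd ℂ (Pn n x - P x) * (Qn n x - Q x)).re +
        w x * (starRingEnd ℂ (Pn n x - P x) * Q x).re) := i12.add i3
    rw [← integral_add i1 i2, ← integral_add i12 i3, ← integral_add i123 i4]
    apply integral_congr_ae
    filter_upwards with x
    rw [← mul_add, ← mul_add, ← mul_add, ← Complex.add_re, ← Complex.add_re, ← Complex.add_re]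
    congr 2
    rw [map_sub]
    ring
  simp_rw [key]
  have sP : Tendsto (fun n => √(∫ x, ‖Pn n x - P x‖ ^ 2)) atTop (𝓝 0) := by
    have := (Real.continuous_sqrt.tendsto 0).comp tP
    rwa [Real.sqrt_zero] at this
  have sQ : Tendsto (fun n => √(∫ x, ‖Qn n x - Q x‖ ^ 2)) atTop (𝓝 0) := by
    have := (Real.continuous_sqrt.tendsto 0).comp tQ
    rwa [Real.sqrt_zero] at this
  have t2 : Tendsto (fun n => ∫ x, w x * (starRingEnd ℂ (Pn n x - P x) * (Qn n x - Q x)).re)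
      atTop (𝓝 0) := by
    apply squeeze_zero_norm (fun n => (Real.norm_eq_abs _).trans_le
      (cs_bound hC hb (dP n) (dQ n)))
    have := (sP.mul sQ).const_mul C
    simpa using this
  have t3 : Tendsto (fun n => ∫ x, w x * (starRingEnd ℂ (Pn n x - P x) * Q x).re)
      atTop (𝓝 0) := by
    apply squeeze_zero_norm (fun n => (Real.norm_eq_abs _).trans_le (cs_bound hC hb (dP n) hQ))
    have := (sP.mul_const (√(∫ x, ‖Q x‖ ^ 2))).const_mul C
    simpa using this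
  have t4 : Tendsto (fun n => ∫ x, w x * (starRingEnd ℂ (P x) * (Qn n x - Q x)).re)
      atTop (𝓝 0) := by
    apply squeeze_zero_norm (fun n => (Real.norm_eq_abs _).trans_le (cs_bound hC hb hP (dQ n)))
    have := (sQ.const_mul (√(∫ x, ‖P x‖ ^ 2))).const_mul C
    simpa using this
  have := ((tendsto_const_nhds (x := ∫ x, w x * (starRingEnd ℂ (P x) * Q x).re)).add t2).add t3
    |>.add t4
  simpa using this

lemma conj_mul_self_re (z : ℂ) : (starRingEnd ℂ z * z).re = ‖z‖ ^ 2 := by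
  rw [mul_comm, Complex.mul_conj, Complex.ofReal_re, Complex.normSq_eq_norm_sq]

lemma tendsto_sq {w : E3 → ℝ} {C : ℝ} {P : E3 → ℂ} {Pn : ℕ → E3 → ℂ} (hC : 0 ≤ C)
    (hw : AEStronglyMeasurable w volume)
    (hb : ∀ᵐ x, |w x| ≤ C) (hP : MemLp P 2 volume)
    (hPn : ∀ n, MemLp (Pn n) 2 volume)
    (tP : Tendsto (fun n => ∫ x, ‖Pn n x - P x‖ ^ 2) atTop (𝓝 0)) :
    Tendsto (fun n => ∫ x, w x * ‖Pn n x‖ ^ 2) atTop (𝓝 (∫ x, w x * ‖P x‖ ^ 2)) := by
  have := tendsto_pair hC hw hb hP hP hPn hPn tP tP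
  simpa only [conj_mul_self_re] using this

lemma integrable_sq {w : E3 → ℝ} {C : ℝ} {P : E3 → ℂ} (hw : AEStronglyMeasurable w volume)
    (hb : ∀ᵐ x, |w x| ≤ C) (hP : MemLp P 2 volume) :
    Integrable (fun x => w x * ‖P x‖ ^ 2) := by
  have := integrable_pair hw hb hP hP
  simpa only [conj_mul_self_re] using this

/-- radial bounds hold almost everywhere -/
lemma ae_rad {w : ℝ → ℝ} {C : ℝ} (h : ∀ r, 0 < r → |w r| ≤ C) : ∀ᵐ x : E3, |w ‖x‖| ≤ C := by
  filter_upwards [ae_pos] with x hx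
  exact h _ hx

lemma c1_contOn {B B1 : ℝ → ℝ} (h : C1 B B1) : ContinuousOn B (Ioi 0) :=
  fun r hr => (h.der r hr).continuousAt.continuousWithinAt

end Pool.Agent.H46.HN
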