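import Pool.Agent.H46.HN.Rsp

/-!
Module PB: the combined virial identity, bounded field.
-/

set_option autoImplicit false

namespace Pool.Agent.H46.HN

open Pool.Agent.H99.HM Pool.Agent.H99.HN
open MeasureTheory Set Filter Topology Real
open scoped ContDiff

/-- the divergence theorem with `ζ = 1` -/
lemma divz_one (h : T_divz) {u : E3 → ℂ} {G : Fin 3 → E3 → ℂ} (hu : IsH1 u G) {B B1 : ℝ → ℝ}
    {C : ℝ} (hC : 0 ≤ C) (hB : C1 B B1)
    (hb : ∀ r, 0 < r → |B r| ≤ C ∧ |B1 r| ≤ C * (1 / r + 1)) :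
    ∫ x, ((B1 ‖x‖ + 2 * B ‖x‖ / ‖x‖) * ‖u x‖ ^ 2 + 2 * B ‖x‖ * ur u G x) = 0 := by
  have h1 := h u G hu B B1 (fun _ => 1) (C + 1) hB (by
    intro r hr
    obtain ⟨e1, e2⟩ := hb r hr
    refine ⟨by linarith, e2.trans ?_⟩
    have : 0 < 1 / r := by positivity
    nlinarith) contDiff_const (by
    intro x
    refine ⟨by rw [abs_one]; linarith, fun i => ?_⟩
    have : pd i (fun _ : E3 => (1 : ℝ)) x = 0 := by
      simp [pd]
    rw [this, abs_zero]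
    linarith)
  have h2 := h1.2.2
  have e1 : ∀ x : E3, ∑ i, x i / ‖x‖ * pd i (fun _ : E3 => (1 : ℝ)) x = 0 := by
    intro x
    apply Finset.sum_eq_zero
    intro i _
    simp [pd]
  simp only [e1, mul_one, mul_zero, integral_zero, neg_zero] at h2
  exact h2

theorem pb (h1 : T_rsb) (h2 : T_eh) (h3 : T_divz) (h4 : T_ibb) (h5 : T_hb) (h6 : T_hardy) :
    T_pb := by
  intro u lam G hs hu B B1 k1 C hB hk hb
  obtain ⟨H, hH, hH2⟩ := abs_hartree h5 hu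
  have hC : 0 ≤ C := (abs_nonneg _).trans (hb 1 one_pos).1
  have hmem := hu.memLp
  have hdr := memLp_dr hu.memLp_grad
  have hdiv := memLp_div h6 hu
  -- weights
  have cB := c1_contOn hB
  have cBr := c1_contOn (c1_div hB)
  have m1 : AEStronglyMeasurable (fun x : E3 => B ‖x‖) volume := meas_rad cB
  have m2 : AEStronglyMeasurable (fun x : E3 => B ‖x‖ / ‖x‖) volume := meas_rad cBr
  have m3 : AEStronglyMeasurable (fun x : E3 => B1 ‖x‖) volume := meas_rad hB.cont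
  have mk : AEStronglyMeasurable (fun x : E3 => k1 ‖x‖) volume := meas_rad hk.cont
  have mH : AEStronglyMeasurable (hartree u) volume := (cont_hartree h5 hu).aestronglyMeasurable
  have b1 : ∀ᵐ x : E3, |B ‖x‖| ≤ C := ae_rad fun r hr => (hb r hr).1
  have hBr : ∀ r, 0 < r → |B r / r| ≤ C := by
    intro r hr
    rw [abs_div, abs_of_pos hr, div_le_iff₀ hr]
    exact (hb r hr).2.1
  have b2 : ∀ᵐ x : E3, |B ‖x‖ / ‖x‖| ≤ C := ae_rad (w := fun r => B r / r) hBr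
  have b3 : ∀ᵐ x : E3, |B1 ‖x‖| ≤ C := ae_rad fun r hr => (hb r hr).2.2.1
  have bk : ∀ᵐ x : E3, |k1 ‖x‖| ≤ C := ae_rad fun r hr => (hb r hr).2.2.2
  -- integrability
  have i1 : Integrable (fun x => B ‖x‖ * ur u G x) := integrable_pair m1 b1 hmem hdr
  have i2 : Integrable (fun x => B ‖x‖ / ‖x‖ * ur u G x) := integrable_pair m2 b2 hmem hdr
  have bH : ∀ᵐ x : E3, |hartree u x| ≤ H := Eventually.of_forall hH2
  have i3 : Integrable (fun x => B ‖x‖ * ur u G x * hartree u x) := by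
    have := i1.bdd_mul (c := H) mH (by simpa only [Real.norm_eq_abs] using bH)
    refine this.congr ?_
    filter_upwards with x
    ring
  obtain ⟨i4, i5, -⟩ := split3 m3 b3 hu.memLp_grad
  obtain ⟨i6, i7, -⟩ := split3 m2 b2 hu.memLp_grad
  have i8 : Integrable (fun x => B1 ‖x‖ * ‖u x‖ ^ 2) := integrable_sq m3 b3 hmem
  have i9 : Integrable (fun x => B ‖x‖ / ‖x‖ * ‖u x‖ ^ 2) := integrable_sq m2 b2 hmem
  have hpair : ∀ x : E3, (starRingEnd ℂ (u x) * (((1 / ‖x‖ : ℝ) : ℂ) * u x)).re =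
      1 / ‖x‖ * ‖u x‖ ^ 2 := by
    intro x
    have e : starRingEnd ℂ (u x) * (((1 / ‖x‖ : ℝ) : ℂ) * u x) =
        ((1 / ‖x‖ : ℝ) : ℂ) * (starRingEnd ℂ (u x) * u x) := by ring
    rw [e, Complex.re_ofReal_mul, conj_mul_self_re]
  have i10 : Integrable (fun x => B1 ‖x‖ / ‖x‖ * ‖u x‖ ^ 2) := by
    have := integrable_pair m3 b3 hmem hdiv
    refine this.congr ?_
    filter_upwards with x
    rw [hpair]
    ring
  have i11 : Integrable (fun x => B ‖x‖ / ‖x‖ ^ 2 * ‖u x‖ ^ 2) := by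
    have := integrable_pair m2 b2 hmem hdiv
    refine this.congr ?_
    filter_upwards with x
    rw [hpair]
    ring
  have i12 : Integrable (fun x => B1 ‖x‖ * ‖u x‖ ^ 2 * hartree u x) := by
    have := i8.bdd_mul (c := H) mH (by simpa only [Real.norm_eq_abs] using bH)
    refine this.congr ?_
    filter_upwards with x
    ring
  have i13 : Integrable (fun x => B ‖x‖ / ‖x‖ * ‖u x‖ ^ 2 * hartree u x) := by
    have := i9.bdd_mul (c := H) mH (by simpa only [Real.norm_eq_abs] using bH)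
    refine this.congr ?_
    filter_upwards with x
    ring
  -- (1)
  have E1 : lam * (∫ x, B ‖x‖ * ur u G x) + (∫ x, B ‖x‖ / ‖x‖ * ur u G x)
      - (∫ x, B ‖x‖ * ur u G x * hartree u x) =
      (1 / 2 * (∫ x, B1 ‖x‖ * ‖dr G x‖ ^ 2) - ∫ x, B ‖x‖ / ‖x‖ * ‖dr G x‖ ^ 2)
      - 1 / 2 * ((∫ x, B1 ‖x‖ * g2 G x) - ∫ x, B1 ‖x‖ * ‖dr G x‖ ^ 2) := by
    have e := h1 u lam G hs hu B B1 C hB
      (fun r hr => ⟨(hb r hr).1, (hb r hr).2.1, (hb r hr).2.2.1⟩)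
    have l : ∫ x, B ‖x‖ * ((lam + 1 / ‖x‖ - hartree u x) * ur u G x) =
        lam * (∫ x, B ‖x‖ * ur u G x) + (∫ x, B ‖x‖ / ‖x‖ * ur u G x)
        - (∫ x, B ‖x‖ * ur u G x * hartree u x) := by
      have j1 : Integrable (fun x => lam * (B ‖x‖ * ur u G x)) := i1.const_mul lam
      have j2 : Integrable (fun x => lam * (B ‖x‖ * ur u G x) + B ‖x‖ / ‖x‖ * ur u G x) :=
        j1.add i2
      rw [← integral_const_mul, ← integral_add j1 i2, ← integral_sub j2 i3]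
      congr 1
      funext x
      ring
    have r1 : ∫ x, (B1 ‖x‖ / 2 - B ‖x‖ / ‖x‖) * ‖dr G x‖ ^ 2 =
        1 / 2 * (∫ x, B1 ‖x‖ * ‖dr G x‖ ^ 2) - ∫ x, B ‖x‖ / ‖x‖ * ‖dr G x‖ ^ 2 := by
      have j1 : Integrable (fun x => 1 / 2 * (B1 ‖x‖ * ‖dr G x‖ ^ 2)) := i5.const_mul _
      rw [← integral_const_mul, ← integral_sub j1 i7]
      congr 1
      funext x
      ring
    have r2 : ∫ x, B1 ‖x‖ / 2 * (g2 G x - ‖dr G x‖ ^ 2) =
        1 / 2 * ((∫ x, B1 ‖x‖ * g2 G x) - ∫ x, B1 ‖x‖ * ‖dr G x‖ ^ 2) := by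
      rw [← integral_sub i4 i5, ← integral_const_mul]
      congr 1
      funext x
      ring
    rw [l, r1, r2] at e
    exact e
  -- (2)
  have E2 : (∫ x, B1 ‖x‖ * ‖u x‖ ^ 2) + 2 * (∫ x, B ‖x‖ / ‖x‖ * ‖u x‖ ^ 2)
      + 2 * (∫ x, B ‖x‖ * ur u G x) = 0 := by
    have e := divz_one h3 hu hC hB (fun r hr => ⟨(hb r hr).1, by
      have e1 := (hb r hr).2.2.1
      have : 0 < 1 / r := by positivity
      nlinarith⟩)
    rw [← e]
    have j1 : Integrable (fun x => 2 * (B ‖x‖ / ‖x‖ * ‖u x‖ ^ 2)) := i9.const_mul _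
    have j2 : Integrable (fun x => 2 * (B ‖x‖ * ur u G x)) := i1.const_mul _
    have j3 : Integrable (fun x => B1 ‖x‖ * ‖u x‖ ^ 2 + 2 * (B ‖x‖ / ‖x‖ * ‖u x‖ ^ 2)) :=
      i8.add j1
    rw [← integral_const_mul, ← integral_const_mul, ← integral_add i8 j1, ← integral_add j3 j2]
    congr 1
    funext x
    ring
  -- (3)
  have E3 : (∫ x, B1 ‖x‖ / ‖x‖ * ‖u x‖ ^ 2) + (∫ x, B ‖x‖ / ‖x‖ ^ 2 * ‖u x‖ ^ 2)
      + 2 * (∫ x, B ‖x‖ / ‖x‖ * ur u G x) = 0 := by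
    have e := divz_one h3 hu (C := 2 * C) (by positivity) (c1_div hB) (fun r hr => ⟨by
      have := hBr r hr
      linarith, by
      have e1 := (hb r hr).2.2.1
      have e2 := hBr r hr
      have e3 : B1 r / r - B r / r ^ 2 = (B1 r - B r / r) * (1 / r) := by
        field_simp
      have e4 : 0 < 1 / r := by positivity
      have e5 := abs_sub_le_abs_add_abs' (B1 r) (B r / r)
      rw [e3, abs_mul, abs_of_pos e4]
      nlinarith⟩)
    rw [← e]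
    have j1 : Integrable (fun x => B1 ‖x‖ / ‖x‖ * ‖u x‖ ^ 2 + B ‖x‖ / ‖x‖ ^ 2 * ‖u x‖ ^ 2) :=
      i10.add i11
    have j2 : Integrable (fun x => 2 * (B ‖x‖ / ‖x‖ * ur u G x)) := i2.const_mul _
    rw [← integral_const_mul, ← integral_add i10 i11, ← integral_add j1 j2]
    apply integral_congr_ae
    filter_upwards [ae_pos] with x hx
    field_simp
    ring
  -- (4)
  have E4 : (∫ x, B1 ‖x‖ * ‖u x‖ ^ 2 * hartree u x)
      + 2 * (∫ x, B ‖x‖ / ‖x‖ * ‖u x‖ ^ 2 * hartree u x)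
      + 2 * (∫ x, B ‖x‖ * ur u G x * hartree u x) = ∫ x, B ‖x‖ / ‖x‖ * ‖u x‖ ^ 2 * Zf u x := by
    have e := h4 u G hu B B1 C hB
      (fun r hr => ⟨(hb r hr).1, (hb r hr).2.1, (hb r hr).2.2.1⟩)
    rw [← e]
    congr 1
    have j1 : Integrable (fun x => 2 * (B ‖x‖ / ‖x‖ * ‖u x‖ ^ 2 * hartree u x)) :=
      i13.const_mul _
    rw [← integral_const_mul, ← integral_add i12 j1]
    congr 1
    funext x
    ring
  -- (5)
  have E5 : (1 / 2 * (∫ x, B1 ‖x‖ * g2 G x) + ∫ x, B ‖x‖ / ‖x‖ * g2 G x)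
      + (∫ x, k1 ‖x‖ * ur u G x)
      - (1 / 2 * (∫ x, B1 ‖x‖ / ‖x‖ * ‖u x‖ ^ 2) + ∫ x, B ‖x‖ / ‖x‖ ^ 2 * ‖u x‖ ^ 2)
      + (1 / 2 * (∫ x, B1 ‖x‖ * ‖u x‖ ^ 2 * hartree u x)
        + ∫ x, B ‖x‖ / ‖x‖ * ‖u x‖ ^ 2 * hartree u x) =
      lam * (1 / 2 * (∫ x, B1 ‖x‖ * ‖u x‖ ^ 2) + ∫ x, B ‖x‖ / ‖x‖ * ‖u x‖ ^ 2) := by
    have e := h2 u lam G hs hu (fun r => B1 r / 2 + B r / r) k1 (2 * C) hk (fun r hr => ⟨by
      have e1 := (hb r hr).2.2.1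
      have e2 := hBr r hr
      have e3 := abs_add_le (B1 r / 2) (B r / r)
      have e4 : |B1 r / 2| ≤ |B1 r| := by
        rw [abs_div, abs_two]
        linarith [abs_nonneg (B1 r)]
      linarith, by
      have := (hb r hr).2.2.2
      linarith⟩)
    have j1 : Integrable (fun x => 1 / 2 * (B1 ‖x‖ * g2 G x)) := i4.const_mul _
    have j2 : Integrable (fun x => 1 / 2 * (B1 ‖x‖ / ‖x‖ * ‖u x‖ ^ 2)) := i10.const_mul _
    have j3 : Integrable (fun x => 1 / 2 * (B1 ‖x‖ * ‖u x‖ ^ 2 * hartree u x)) :=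
      i12.const_mul _
    have j4 : Integrable (fun x => 1 / 2 * (B1 ‖x‖ * ‖u x‖ ^ 2)) := i8.const_mul _
    rw [← integral_const_mul, ← integral_add j1 i6, ← integral_const_mul, ← integral_add j2 i11,
      ← integral_const_mul, ← integral_add j3 i13, ← integral_const_mul, ← integral_add j4 i9]
    have r1 : (∫ x, (1 / 2 * (B1 ‖x‖ * g2 G x) + B ‖x‖ / ‖x‖ * g2 G x)) =
        ∫ x, (B1 ‖x‖ / 2 + B ‖x‖ / ‖x‖) * g2 G x := by
      congr 1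
      funext x
      ring
    have r2 : (∫ x, (1 / 2 * (B1 ‖x‖ / ‖x‖ * ‖u x‖ ^ 2) + B ‖x‖ / ‖x‖ ^ 2 * ‖u x‖ ^ 2)) =
        ∫ x, (B1 ‖x‖ / 2 + B ‖x‖ / ‖x‖) / ‖x‖ * ‖u x‖ ^ 2 := by
      congr 1
      funext x
      ring
    have r3 : (∫ x, (1 / 2 * (B1 ‖x‖ * ‖u x‖ ^ 2 * hartree u x)
        + B ‖x‖ / ‖x‖ * ‖u x‖ ^ 2 * hartree u x)) =
        ∫ x, (B1 ‖x‖ / 2 + B ‖x‖ / ‖x‖) * ‖u x‖ ^ 2 * hartree u x := by
      congr 1
      funext x
      ring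
    have r4 : (∫ x, (1 / 2 * (B1 ‖x‖ * ‖u x‖ ^ 2) + B ‖x‖ / ‖x‖ * ‖u x‖ ^ 2)) =
        ∫ x, (B1 ‖x‖ / 2 + B ‖x‖ / ‖x‖) * ‖u x‖ ^ 2 := by
      congr 1
      funext x
      ring
    rw [r1, r2, r3, r4]
    exact e
  -- the goal
  have EG : ∫ x, (B1 ‖x‖ * ‖dr G x‖ ^ 2 + B ‖x‖ / ‖x‖ * (g2 G x - ‖dr G x‖ ^ 2)) =
      (∫ x, B1 ‖x‖ * ‖dr G x‖ ^ 2) + ((∫ x, B ‖x‖ / ‖x‖ * g2 G x)
        - ∫ x, B ‖x‖ / ‖x‖ * ‖dr G x‖ ^ 2) := by
    have j1 : Integrable (fun x => B ‖x‖ / ‖x‖ * g2 G x - B ‖x‖ / ‖x‖ * ‖dr G x‖ ^ 2) :=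
      i6.sub i7
    rw [← integral_sub i6 i7, ← integral_add i5 j1]
    congr 1
    funext x
    ring
  rw [EG]
  linear_combination E5 - E1 + (1/2) * lam * E2 + (1/2) * E3 - (1/2) * E4

end Pool.Agent.H46.HN
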