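import Pool.Agent.H46.HN.L2

/-!
Module REL: Rellich's identity for a bounded radial field.
-/

set_option autoImplicit false

namespace Pool.Agent.H46.HN

open Pool.Agent.H99.HM Pool.Agent.H99.HN
open MeasureTheory Set Filter Topology Real
open scoped ContDiff

lemma istest_pd {φ : E3 → ℝ} (h : IsTest φ) (i : Fin 3) : IsTest (pd i φ) := by
  refine ⟨?_, ?_⟩
  · exact (h.1.fderiv_right (m := ∞) (by norm_cast)).clm_apply contDiff_const
  · exact HasCompactSupport.fderiv_apply (𝕜 := ℝ) h.2 _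

lemma istest_memLp {φ : E3 → ℝ} (h : IsTest φ) : MemLp φ 2 volume :=
  h.1.continuous.memLp_of_hasCompactSupport h.2

lemma istest_lap {φ : E3 → ℝ} (h : IsTest φ) : MemLp (lap φ) 2 volume := by
  have : lap φ = fun x => ∑ i, pd i (pd i φ) x := rfl
  rw [this]
  exact memLp_finsetSum _ fun i _ => istest_memLp (istest_pd (istest_pd h i) i)

lemma memLp_cplx {f g : E3 → ℝ} (hf : MemLp f 2 volume) (hg : MemLp g 2 volume) :
    MemLp (fun x => (f x : ℂ) + (g x : ℂ) * Complex.I) 2 volume := by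
  have h1 : MemLp (fun x => (f x : ℂ)) 2 volume := hf.ofReal
  have h2 : MemLp (fun x => (g x : ℂ)) 2 volume := hg.ofReal
  exact h1.add (h2.mul_const Complex.I)

lemma abs_sub_le_abs_add_abs' (a b : ℝ) : |a - b| ≤ |a| + |b| := by
  simpa using norm_sub_le a b

/-- the radial derivative of a real function -/
noncomputable def drr (φ : E3 → ℝ) (x : E3) : ℝ := ∑ i, x i / ‖x‖ * pd i φ x

lemma memLp_drr {φ : E3 → ℝ} (h : IsTest φ) : MemLp (drr φ) 2 volume := by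
  have : drr φ = fun x => ∑ i, x i / ‖x‖ * pd i φ x := rfl
  rw [this]
  apply memLp_finsetSum
  intro i _
  refine MemLp.of_le_mul (c := 1) (istest_memLp (istest_pd h i)) ?_ ?_
  · exact (meas_dir i).aestronglyMeasurable.mul (istest_memLp (istest_pd h i)).1
  · filter_upwards with x
    rw [norm_mul, Real.norm_eq_abs]
    exact mul_le_mul_of_nonneg_right (abs_dir_le i x) (norm_nonneg _)

lemma integrable_real {w p q : E3 → ℝ} {C : ℝ} (hw : AEStronglyMeasurable w volume)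
    (hb : ∀ᵐ x, |w x| ≤ C) (hp : MemLp p 2 volume) (hq : MemLp q 2 volume) :
    Integrable (fun x => w x * (p x * q x)) := by
  have h1 : Integrable (fun x => p x * q x) := MemLp.integrable_mul (p := 2) (q := 2) hp hq
  exact h1.bdd_mul (c := C) hw (by
    filter_upwards [hb] with x hx
    rwa [Real.norm_eq_abs])

lemma split3 {w : E3 → ℝ} {C : ℝ} {G : Fin 3 → E3 → ℂ} (hw : AEStronglyMeasurable w volume)
    (hb : ∀ᵐ x, |w x| ≤ C) (hG : ∀ i, MemLp (G i) 2 volume) :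
    Integrable (fun x => w x * g2 G x) ∧ Integrable (fun x => w x * ‖dr G x‖ ^ 2) ∧
    ∫ x, w x * (g2 G x - ‖dr G x‖ ^ 2) =
      (∑ i, ∫ x, w x * ‖G i x‖ ^ 2) - ∫ x, w x * ‖dr G x‖ ^ 2 := by
  have i1 : ∀ i, Integrable (fun x => w x * ‖G i x‖ ^ 2) := fun i => integrable_sq hw hb (hG i)
  have i2 : Integrable (fun x => w x * g2 G x) := by
    have : (fun x => w x * g2 G x) = fun x => ∑ i, w x * ‖G i x‖ ^ 2 := by
      funext x
      rw [g2, Finset.mul_sum]
    rw [this]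
    exact integrable_finsetSum _ fun i _ => i1 i
  have i3 : Integrable (fun x => w x * ‖dr G x‖ ^ 2) := integrable_sq hw hb (memLp_dr hG)
  refine ⟨i2, i3, ?_⟩
  rw [← integral_finsetSum _ fun i _ => i1 i]
  rw [← integral_sub]
  · congr 1
    funext x
    rw [mul_sub, g2, Finset.mul_sum]
  · exact integrable_finsetSum _ fun i _ => i1 i
  · exact i3

theorem rel (h1 : T_dens2) (h2 : T_relt) : T_rel := by
  intro u G g hu hg hwk B B1 C hC1 hb
  obtain ⟨φ, ψ, ht, -, t1, t2⟩ := h1 u G g hu hg hwk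
  have hC : 0 ≤ C := (abs_nonneg _).trans (hb 1 one_pos).1
  -- the weights
  have m1 : AEStronglyMeasurable (fun x : E3 => B ‖x‖) volume := meas_rad (c1_contOn hC1)
  have b1 : ∀ᵐ x : E3, |B ‖x‖| ≤ C := ae_rad fun r hr => (hb r hr).1
  have m3 : AEStronglyMeasurable (fun x : E3 => B1 ‖x‖ / 2) volume :=
    (meas_rad (w := fun r => B1 r / 2) (hC1.cont.div_const 2))
  have b3 : ∀ᵐ x : E3, |B1 ‖x‖ / 2| ≤ C := by
    filter_upwards [ae_rad fun r hr => (hb r hr).2.2] with x hx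
    rw [abs_div, abs_two]
    linarith [abs_nonneg (B1 ‖x‖)]
  have m2 : AEStronglyMeasurable (fun x : E3 => B1 ‖x‖ / 2 - B ‖x‖ / ‖x‖) volume :=
    m3.sub (m1.div₀ measurable_norm.aestronglyMeasurable)
  have b2 : ∀ᵐ x : E3, |B1 ‖x‖ / 2 - B ‖x‖ / ‖x‖| ≤ 2 * C := by
    filter_upwards [b3, ae_pos] with x hx hx0
    have e : |B ‖x‖ / ‖x‖| ≤ C := by
      rw [abs_div, abs_norm, div_le_iff₀ hx0]
      exact (hb _ hx0).2.1
    have := abs_sub_le_abs_add_abs' (B1 ‖x‖ / 2) (B ‖x‖ / ‖x‖)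
    linarith
  -- approximations
  let Gn : ℕ → Fin 3 → E3 → ℂ := fun n i x =>
    (pd i (φ n) x : ℂ) + (pd i (ψ n) x : ℂ) * Complex.I
  let gn : ℕ → E3 → ℂ := fun n x => ((-lap (φ n) x : ℝ) : ℂ) + ((-lap (ψ n) x : ℝ) : ℂ) * Complex.I
  have hGn : ∀ n i, MemLp (Gn n i) 2 volume := fun n i =>
    memLp_cplx (istest_memLp (istest_pd (ht n).1 i)) (istest_memLp (istest_pd (ht n).2 i))
  have hgn : ∀ n, MemLp (gn n) 2 volume := fun n =>
    memLp_cplx (istest_lap (ht n).1).neg (istest_lap (ht n).2).neg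
  have hdrn : ∀ n x, dr (Gn n) x = (drr (φ n) x : ℂ) + (drr (ψ n) x : ℂ) * Complex.I := by
    intro n x
    simp only [dr, drr, Gn]
    push_cast
    rw [Finset.sum_mul, ← Finset.sum_add_distrib]
    apply Finset.sum_congr rfl
    intro i _
    ring
  have nsq : ∀ a b : ℝ, ‖(a : ℂ) + (b : ℂ) * Complex.I‖ ^ 2 = a ^ 2 + b ^ 2 := by
    intro a b
    rw [Complex.sq_norm, Complex.normSq_add_mul_I]
  have hid : ∀ n, ∫ x, B ‖x‖ * (starRingEnd ℂ (dr (Gn n) x) * gn n x).re =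
      (∫ x, (B1 ‖x‖ / 2 - B ‖x‖ / ‖x‖) * ‖dr (Gn n) x‖ ^ 2)
        - ∫ x, B1 ‖x‖ / 2 * (g2 (Gn n) x - ‖dr (Gn n) x‖ ^ 2) := by
    intro n
    have e1 := h2 (φ n) (ht n).1 B B1 C hC1 hb
    have e2 := h2 (ψ n) (ht n).2 B B1 C hC1 hb
    have hsq : ∀ (χ : E3 → ℝ), IsTest χ →
        Integrable (fun x => (B1 ‖x‖ / 2 - B ‖x‖ / ‖x‖) * (drr χ x) ^ 2) := by
      intro χ hχ
      have := integrable_real m2 b2 (memLp_drr hχ) (memLp_drr hχ)
      simpa only [← pow_two] using this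
    have hsq2 : ∀ (χ : E3 → ℝ), IsTest χ →
        Integrable (fun x => B1 ‖x‖ / 2 * ((∑ i, pd i χ x ^ 2) - (drr χ x) ^ 2)) := by
      intro χ hχ
      have a1 := integrable_real m3 b3 (memLp_drr hχ) (memLp_drr hχ)
      have a2 : ∀ i, Integrable (fun x => B1 ‖x‖ / 2 * (pd i χ x * pd i χ x)) := fun i =>
        integrable_real m3 b3 (istest_memLp (istest_pd hχ i)) (istest_memLp (istest_pd hχ i))
      have a3 : Integrable (fun x => ∑ i, B1 ‖x‖ / 2 * (pd i χ x * pd i χ x)) :=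
        integrable_finsetSum _ fun i _ => a2 i
      have a4 := a3.sub a1
      refine a4.congr ?_
      filter_upwards with x
      simp only [Pi.sub_apply]
      rw [← Finset.mul_sum, ← mul_sub]
      simp only [pow_two]
    have hlin : ∀ (χ : E3 → ℝ), IsTest χ →
        Integrable (fun x => B ‖x‖ * (-lap χ x * drr χ x)) := by
      intro χ hχ
      exact integrable_real m1 b1 (istest_lap hχ).neg (memLp_drr hχ)
    have c1 : ∫ x, B ‖x‖ * (starRingEnd ℂ (dr (Gn n) x) * gn n x).re =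
        (∫ x, B ‖x‖ * (-lap (φ n) x * drr (φ n) x)) +
        ∫ x, B ‖x‖ * (-lap (ψ n) x * drr (ψ n) x) := by
      rw [← integral_add (hlin _ (ht n).1) (hlin _ (ht n).2)]
      congr 1
      funext x
      rw [hdrn, ← mul_add]
      congr 1
      simp only [gn, map_add, map_mul, Complex.conj_ofReal, Complex.conj_I]
      simp [Complex.add_re, Complex.mul_re, Complex.mul_im, Complex.add_im]
      ring
    have c2 : ∫ x, (B1 ‖x‖ / 2 - B ‖x‖ / ‖x‖) * ‖dr (Gn n) x‖ ^ 2 =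
        (∫ x, (B1 ‖x‖ / 2 - B ‖x‖ / ‖x‖) * (drr (φ n) x) ^ 2) +
        ∫ x, (B1 ‖x‖ / 2 - B ‖x‖ / ‖x‖) * (drr (ψ n) x) ^ 2 := by
      rw [← integral_add (hsq _ (ht n).1) (hsq _ (ht n).2)]
      congr 1
      funext x
      rw [hdrn, nsq, ← mul_add]
    have c3 : ∫ x, B1 ‖x‖ / 2 * (g2 (Gn n) x - ‖dr (Gn n) x‖ ^ 2) =
        (∫ x, B1 ‖x‖ / 2 * ((∑ i, pd i (φ n) x ^ 2) - (drr (φ n) x) ^ 2)) +
        ∫ x, B1 ‖x‖ / 2 * ((∑ i, pd i (ψ n) x ^ 2) - (drr (ψ n) x) ^ 2) := by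
      rw [← integral_add (hsq2 _ (ht n).1) (hsq2 _ (ht n).2)]
      congr 1
      funext x
      rw [hdrn, nsq, ← mul_add]
      congr 1
      have : g2 (Gn n) x = (∑ i, pd i (φ n) x ^ 2) + ∑ i, pd i (ψ n) x ^ 2 := by
        rw [g2, ← Finset.sum_add_distrib]
        apply Finset.sum_congr rfl
        intro i _
        exact nsq _ _
      rw [this]
      ring
    rw [c1, c2, c3]
    have e1' : ∫ x, B ‖x‖ * (-lap (φ n) x * drr (φ n) x) =
      (∫ x, (B1 ‖x‖ / 2 - B ‖x‖ / ‖x‖) * (drr (φ n) x) ^ 2)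
      - ∫ x, B1 ‖x‖ / 2 * ((∑ i, pd i (φ n) x ^ 2) - (drr (φ n) x) ^ 2) := e1
    have e2' : ∫ x, B ‖x‖ * (-lap (ψ n) x * drr (ψ n) x) =
      (∫ x, (B1 ‖x‖ / 2 - B ‖x‖ / ‖x‖) * (drr (ψ n) x) ^ 2)
      - ∫ x, B1 ‖x‖ / 2 * ((∑ i, pd i (ψ n) x ^ 2) - (drr (ψ n) x) ^ 2) := e2
    rw [e1', e2']
    ring
  -- convergence
  have tg : Tendsto (fun n => ∫ x, ‖gn n x - g x‖ ^ 2) atTop (𝓝 0) := by
    refine t2.congr fun n => ?_
    congr 1
    funext x
    rw [← norm_neg]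
    congr 2
    simp only [gn]
    push_cast
    ring
  have tG : ∀ i, Tendsto (fun n => ∫ x, ‖Gn n i x - G i x‖ ^ 2) atTop (𝓝 0) := by
    intro i
    refine (t1 i).congr fun n => ?_
    congr 1
    funext x
    rw [norm_sub_rev]
  have hdr := memLp_dr hu.memLp_grad
  have hdrn' : ∀ n, MemLp (dr (Gn n)) 2 volume := fun n => memLp_dr (hGn n)
  have tdr : Tendsto (fun n => ∫ x, ‖dr (Gn n) x - dr G x‖ ^ 2) atTop (𝓝 0) := by
    have hsum : Tendsto (fun n => ∑ i, ∫ x, ‖Gn n i x - G i x‖ ^ 2) atTop (𝓝 0) := by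
      have := tendsto_finsetSum (Finset.univ : Finset (Fin 3)) (fun i _ => tG i)
      simpa using this
    refine squeeze_zero (fun n => integral_nonneg fun x => by positivity) (fun n => ?_) hsum
    have hint : ∀ i, Integrable (fun x => ‖Gn n i x - G i x‖ ^ 2) := fun i =>
      ((hGn n i).sub (hu.memLp_grad i)).integrable_norm_pow (by norm_num)
    rw [← integral_finsetSum _ fun i _ => hint i]
    apply integral_mono (((hdrn' n).sub hdr).integrable_norm_pow (by norm_num))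
      (integrable_finsetSum _ fun i _ => hint i)
    intro x
    have := norm_dr_sq_le (fun i x => Gn n i x - G i x) x
    have e : dr (fun i x => Gn n i x - G i x) x = dr (Gn n) x - dr G x := by
      simp only [dr]
      rw [← Finset.sum_sub_distrib]
      apply Finset.sum_congr rfl
      intro i _
      ring
    rw [e] at this
    exact this
  have L1 := tendsto_pair hC m1 b1 hdr hg hdrn' hgn tdr tg
  have L2 := tendsto_sq (by positivity) m2 b2 hdr hdrn' tdr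
  have L3 : Tendsto (fun n => ∫ x, B1 ‖x‖ / 2 * (g2 (Gn n) x - ‖dr (Gn n) x‖ ^ 2)) atTop
      (𝓝 (∫ x, B1 ‖x‖ / 2 * (g2 G x - ‖dr G x‖ ^ 2))) := by
    rw [(split3 m3 b3 hu.memLp_grad).2.2]
    have : (fun n => ∫ x, B1 ‖x‖ / 2 * (g2 (Gn n) x - ‖dr (Gn n) x‖ ^ 2)) = fun n =>
        (∑ i, ∫ x, B1 ‖x‖ / 2 * ‖Gn n i x‖ ^ 2) - ∫ x, B1 ‖x‖ / 2 * ‖dr (Gn n) x‖ ^ 2 := by
      funext n
      exact (split3 m3 b3 (hGn n)).2.2
    rw [this]
    apply Tendsto.sub
    · apply tendsto_finsetSum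
      intro i _
      exact tendsto_sq hC m3 b3 (hu.memLp_grad i) (fun n => hGn n i) (tG i)
    · exact tendsto_sq hC m3 b3 hdr hdrn' tdr
  refine tendsto_nhds_unique L1 ?_
  simp_rw [hid]
  exact L2.sub L3

end Pool.Agent.H46.HN
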