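import Pool.Agent.H46.HN.Rel

/-!
Module RSB: Rellich's identity for solutions, bounded radial field.
-/

set_option autoImplicit false

namespace Pool.Agent.H46.HN

open Pool.Agent.H99.HM Pool.Agent.H99.HN
open MeasureTheory Set Filter Topology Real
open scoped ContDiff

/-- `u/|x|` is square integrable -/
lemma memLp_div (h : T_hardy) {u : E3 → ℂ} {G : Fin 3 → E3 → ℂ} (hu : IsH1 u G) :
    MemLp (fun x => ((1 / ‖x‖ : ℝ) : ℂ) * u x) 2 volume := by
  have h1 := (h u G hu 0).1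
  have hm : AEStronglyMeasurable (fun x : E3 => ((1 / ‖x‖ : ℝ) : ℂ) * u x) volume := by
    apply AEStronglyMeasurable.mul _ hu.memLp.1
    apply Complex.continuous_ofReal.comp_aestronglyMeasurable
    exact (measurable_const.div measurable_norm).aestronglyMeasurable
  rw [memLp_two_iff_integrable_sq_norm hm]
  refine h1.congr ?_
  filter_upwards with x
  rw [sub_zero, norm_mul, Complex.norm_real, Real.norm_eq_abs, mul_pow, sq_abs]
  ring

lemma cont_hartree (h : T_hb) {u : E3 → ℂ} {G : Fin 3 → E3 → ℂ} (hu : IsH1 u G) :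
    Continuous (hartree u) := by
  have h2 := (h u G hu).2.1
  have hnn : 0 ≤ 4 * ∫ y, g2 G y := by
    have : 0 ≤ ∫ y, g2 G y := integral_nonneg fun y => Finset.sum_nonneg fun i _ => by positivity
    positivity
  have : LipschitzWith ⟨4 * ∫ y, g2 G y, hnn⟩ (hartree u) := by
    apply LipschitzWith.of_dist_le_mul
    intro x y
    rw [Real.dist_eq, dist_eq_norm]
    exact h2 x y
  exact this.continuous

lemma abs_hartree (h : T_hb) {u : E3 → ℂ} {G : Fin 3 → E3 → ℂ} (hu : IsH1 u G) :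
    ∃ H, 0 ≤ H ∧ ∀ x, |hartree u x| ≤ H := by
  have h1 := (h u G hu).1
  refine ⟨(∫ y, g2 G y) + mass u, ?_, fun x => ?_⟩
  · exact (h1 0).2.1.trans (h1 0).2.2
  · rw [abs_of_nonneg (h1 x).2.1]
    exact (h1 x).2.2

/-- the right-hand side of the equation -/
noncomputable def gg (lam : ℝ) (u : E3 → ℂ) (x : E3) : ℂ :=
  ((lam + 1 / ‖x‖ - hartree u x : ℝ) : ℂ) * u x

lemma memLp_gg (h1 : T_hardy) (h2 : T_hb) (lam : ℝ) {u : E3 → ℂ} {G : Fin 3 → E3 → ℂ}
    (hu : IsH1 u G) : MemLp (gg lam u) 2 volume := by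
  obtain ⟨H, hH, hH2⟩ := abs_hartree h2 hu
  have a1 : MemLp (fun x => (lam : ℂ) * u x) 2 volume := hu.memLp.const_mul (lam : ℂ)
  have a2 := memLp_div h1 hu
  have a3 : MemLp (fun x => (hartree u x : ℂ) * u x) 2 volume :=
    MemLp.bdd_mul' hu.memLp (cont_hartree h2 hu).aestronglyMeasurable
      (Eventually.of_forall hH2)
  have := (a1.add a2).sub a3
  refine this.ae_eq ?_
  filter_upwards with x
  simp only [Pi.add_apply, Pi.sub_apply, gg]
  push_cast
  ring

lemma weak_gg (h1 : T_hardy) (h2 : T_hb) {lam : ℝ} {u : E3 → ℂ} {G : Fin 3 → E3 → ℂ}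
    (hs : IsSol u lam) (hu : IsH1 u G) (φ : E3 → ℝ) (hφ : IsTest φ) :
    ∑ i, ∫ x, (pd i φ x : ℂ) * G i x = ∫ x, (φ x : ℂ) * gg lam u x := by
  obtain ⟨H, hH, hH2⟩ := abs_hartree h2 hu
  have hφ2 : MemLp (fun x => (φ x : ℂ)) 2 volume := (istest_memLp hφ).ofReal
  have hpp : ∀ i, MemLp (fun x => (pd i (pd i φ) x : ℂ)) 2 volume := fun i =>
    (istest_memLp (istest_pd (istest_pd hφ i) i)).ofReal
  have e1 : ∀ i, ∫ x, (pd i φ x : ℂ) * G i x = ∫ x, -((pd i (pd i φ) x : ℂ) * u x) := by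
    intro i
    have := hu.weak i (pd i φ) (istest_pd hφ i)
    rw [integral_neg]
    have e : ∫ x, (pd i φ x : ℂ) * G i x = ∫ x, G i x * (pd i φ x : ℂ) := by
      congr 1
      funext x
      ring
    have e' : ∫ x, (pd i (pd i φ) x : ℂ) * u x = ∫ x, u x * (pd i (pd i φ) x : ℂ) := by
      congr 1
      funext x
      ring
    rw [e, e', this, neg_neg]
  have e2 : ∑ i, ∫ x, (pd i φ x : ℂ) * G i x = ∫ x, (-(lap φ x) : ℂ) * u x := by
    simp_rw [e1]
    rw [← integral_finsetSum]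
    · congr 1
      funext x
      rw [lap]
      push_cast
      rw [Finset.sum_neg_distrib, ← Finset.sum_mul, neg_mul]
    · intro i _
      exact (MemLp.integrable_mul (p := 2) (q := 2) (hpp i) hu.memLp).neg
  rw [e2]
  have hS := hs.2 φ hφ
  have a1 : Integrable (fun x => (φ x : ℂ) * u x) :=
    MemLp.integrable_mul (p := 2) (q := 2) hφ2 hu.memLp
  have a2 : Integrable (fun x => ((φ x / ‖x‖ : ℝ) : ℂ) * u x) := by
    have : Integrable (fun x => (φ x : ℂ) * (((1 / ‖x‖ : ℝ) : ℂ) * u x)) :=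
      MemLp.integrable_mul (p := 2) (q := 2) hφ2 (memLp_div h1 hu)
    refine this.congr ?_
    filter_upwards with x
    push_cast
    ring
  have a3 : Integrable (fun x => ((hartree u x * φ x : ℝ) : ℂ) * u x) := by
    have h3 : MemLp (fun x => (hartree u x : ℂ) * u x) 2 volume :=
      MemLp.bdd_mul' hu.memLp (cont_hartree h2 hu).aestronglyMeasurable
        (Eventually.of_forall hH2)
    have : Integrable (fun x => (φ x : ℂ) * ((hartree u x : ℂ) * u x)) :=
      MemLp.integrable_mul (p := 2) (q := 2) hφ2 h3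
    refine this.congr ?_
    filter_upwards with x
    push_cast
    ring
  have e3 : ∫ x, (φ x : ℂ) * gg lam u x = (lam : ℂ) * (∫ x, (φ x : ℂ) * u x)
      + (∫ x, ((φ x / ‖x‖ : ℝ) : ℂ) * u x) - ∫ x, ((hartree u x * φ x : ℝ) : ℂ) * u x := by
    have a1' : Integrable (fun x => (lam : ℂ) * ((φ x : ℂ) * u x)) := a1.const_mul _
    have a12 : Integrable (fun x => (lam : ℂ) * ((φ x : ℂ) * u x) +
      ((φ x / ‖x‖ : ℝ) : ℂ) * u x) := a1'.add a2
    rw [← integral_const_mul, ← integral_add a1' a2, ← integral_sub a12 a3]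
    congr 1
    funext x
    rw [gg]
    push_cast
    ring
  rw [e3, ← hS]
  ring

theorem rsb (h1 : T_rel) (h2 : T_hardy) (h3 : T_hb) : T_rsb := by
  intro u lam G hs hu B B1 C hC1 hb
  have := h1 u G (gg lam u) hu (memLp_gg h2 h3 lam hu) (weak_gg h2 h3 hs hu) B B1 C hC1 hb
  rw [← this]
  congr 1
  funext x
  congr 1
  rw [ur, gg]
  have e : (starRingEnd ℂ (dr G x) * (((lam + 1 / ‖x‖ - hartree u x : ℝ) : ℂ) * u x)) =
      ((lam + 1 / ‖x‖ - hartree u x : ℝ) : ℂ) * (starRingEnd ℂ (dr G x) * u x) := by ring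
  rw [e, Complex.re_ofReal_mul]
  congr 1
  rw [← Complex.conj_re, map_mul, Complex.conj_conj, mul_comm]

end Pool.Agent.H46.HN
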