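import Pool.Agent.H46.HN.Rsb

/-!
Module RSP: Rellich's identity for solutions, polynomially bounded radial field.
-/

set_option autoImplicit false

namespace Pool.Agent.H46.HN

open Pool.Agent.H99.HM Pool.Agent.H99.HN
open MeasureTheory Set Filter Topology Real
open scoped ContDiff

/-- cut-off -/
noncomputable def chi (K : ℕ) (a r : ℝ) : ℝ := (a / (a + r)) ^ K

lemma chi_pos {K : ℕ} {a r : ℝ} (ha : 0 < a) (hr : 0 < r) : 0 < chi K a r := by
  unfold chi
  positivity

lemma chi_le_one {K : ℕ} {a r : ℝ} (ha : 0 < a) (hr : 0 < r) : chi K a r ≤ 1 := by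
  unfold chi
  apply pow_le_one₀ (by positivity)
  rw [div_le_one (by positivity)]
  linarith

lemma pow_mul_chi {K j : ℕ} (hj : j ≤ K) {a r : ℝ} (ha : 0 < a) (hr : 0 < r) :
    r ^ j * chi K a r ≤ a ^ j := by
  have h1 : chi K a r ≤ chi j a r := by
    unfold chi
    apply pow_le_pow_of_le_one (by positivity) _ hj
    rw [div_le_one (by positivity)]
    linarith
  calc r ^ j * chi K a r ≤ r ^ j * chi j a r := mul_le_mul_of_nonneg_left h1 (by positivity)
    _ = (a * (r / (a + r))) ^ j := by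
        unfold chi
        rw [← mul_pow]
        congr 1
        field_simp
    _ ≤ a ^ j := by
        apply pow_le_pow_left₀ (by positivity)
        have : r / (a + r) ≤ 1 := by
          rw [div_le_one (by positivity)]
          linarith
        nlinarith

lemma chi_der {K : ℕ} {a r : ℝ} (ha : 0 < a) (hr : 0 < r) :
    HasDerivAt (chi K a) (-(K / (a + r) * chi K a r)) r := by
  have h0 : a + r ≠ 0 := by positivity
  have h1 : HasDerivAt (fun r => a + r) 1 r := by
    simpa using (hasDerivAt_id r).const_add a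
  have h2 : HasDerivAt (fun r => a / (a + r)) (-(a / (a + r) ^ 2)) r := by
    have := (h1.inv h0).const_mul a
    refine this.congr_deriv ?_
    field_simp
  have h3 := h2.pow K
  refine h3.congr_deriv ?_
  unfold chi
  rcases K with _ | K
  · simp
  · rw [Nat.add_sub_cancel, pow_succ (a / (a + r)) K]
    push_cast
    field_simp

lemma chi_tendsto (K : ℕ) (r : ℝ) : Tendsto (fun n : ℕ => chi K ((n : ℝ) + 1) r) atTop (𝓝 1) := by
  unfold chi
  have h1 : Tendsto (fun n : ℕ => ((n : ℝ) + 1) + r) atTop atTop :=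
    tendsto_atTop_add_const_right _ _
      (tendsto_atTop_add_const_right _ _ tendsto_natCast_atTop_atTop)
  have h2 : Tendsto (fun n : ℕ => ((n : ℝ) + 1) / ((n : ℝ) + 1 + r)) atTop (𝓝 1) := by
    have h3 : Tendsto (fun n : ℕ => 1 - r / ((n : ℝ) + 1 + r)) atTop (𝓝 (1 - 0)) :=
      tendsto_const_nhds.sub (h1.const_div_atTop r)
    rw [sub_zero] at h3
    refine h3.congr' ?_
    filter_upwards [h1.eventually_gt_atTop 0] with n hn
    field_simp
    ring
  simpa using h2.pow K

lemma pow_le_gr {j p : ℕ} (h : j ≤ p) {r : ℝ} (hr : 0 < r) : r ^ j ≤ 1 + r ^ p := by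
  rcases le_total r 1 with h1 | h1
  · have := pow_le_one₀ hr.le h1 (n := j)
    have : 0 < r ^ p := by positivity
    linarith
  · have := pow_le_pow_right₀ h1 h
    linarith

lemma pow_le_gr1 {j p : ℕ} (h : j ≤ p) {r : ℝ} (hr : 0 < r) : r ^ j ≤ 1 / r + r ^ p := by
  rcases le_total r 1 with h1 | h1
  · have h2 := pow_le_one₀ hr.le h1 (n := j)
    have h3 : 0 < r ^ p := by positivity
    have h4 : 1 ≤ 1 / r := by
      rw [le_div_iff₀ hr]
      linarith
    linarith
  · have h2 := pow_le_pow_right₀ h1 h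
    have : 0 < 1 / r := by positivity
    linarith

lemma meas_dr {u : E3 → ℂ} {G : Fin 3 → E3 → ℂ} (hu : IsH1 u G) :
    AEStronglyMeasurable (dr G) volume := (memLp_dr hu.memLp_grad).1

lemma meas_ur {u : E3 → ℂ} {G : Fin 3 → E3 → ℂ} (hu : IsH1 u G) :
    AEStronglyMeasurable (ur u G) volume := by
  have h1 : AEStronglyMeasurable (fun x => starRingEnd ℂ (u x) * dr G x) volume :=
    (RCLike.continuous_conj.comp_aestronglyMeasurable hu.memLp.1).mul (meas_dr hu)
  exact Complex.continuous_re.comp_aestronglyMeasurable h1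

lemma meas_g2 {u : E3 → ℂ} {G : Fin 3 → E3 → ℂ} (hu : IsH1 u G) :
    AEStronglyMeasurable (g2 G) volume := by
  have : g2 G = fun x => ∑ i, ‖G i x‖ ^ 2 := rfl
  rw [this]
  have h := Finset.aestronglyMeasurable_sum (μ := (volume : Measure E3)) (Finset.univ : Finset (Fin 3))
    (f := fun i x => ‖G i x‖ ^ 2) (fun i _ => ((hu.memLp_grad i).1.norm.pow 2))
  refine h.congr ?_
  filter_upwards with x
  simp

lemma c1_div {B B1 : ℝ → ℝ} (h : C1 B B1) :
    C1 (fun r => B r / r) (fun r => B1 r / r - B r / r ^ 2) := by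
  refine ⟨fun r hr => ?_, ?_⟩
  · have := (h.der r hr).div (hasDerivAt_id r) hr.ne'
    refine this.congr_deriv ?_
    simp only [id]
    field_simp
  · apply ContinuousOn.sub
    · exact h.cont.div continuousOn_id fun r hr => (ne_of_gt hr)
    · exact (c1_contOn h).div (continuousOn_id.pow 2) fun r hr => pow_ne_zero _ (ne_of_gt hr)

theorem rsp (h1 : T_rsb) (h2 : T_pint) (h3 : T_hb) : T_rsp := by
  intro u lam G hs hu hM B B1 hC1 hgB hgB1
  obtain ⟨C, N, hCN⟩ := hgB
  obtain ⟨C', M, hCM⟩ := hgB1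
  obtain ⟨H, hH, hH2⟩ := abs_hartree h3 hu
  obtain ⟨p1, p2⟩ := h2 u G hu hM
  have hC : 0 ≤ C := by
    have := (abs_nonneg _).trans (hCN 1 one_pos)
    simp only [one_pow] at this
    linarith
  have hC' : 0 ≤ C' := by
    have := (abs_nonneg _).trans (hCM 1 one_pos)
    simp only [one_pow] at this
    linarith
  have hB : ∀ r, 0 < r → |B r| ≤ C * r * (1 + r ^ N) := by
    intro r hr
    have := hCN r hr
    rw [abs_div, abs_of_pos hr, div_le_iff₀ hr] at this
    linarith
  set K := N + M + 2 with hK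
  let a : ℕ → ℝ := fun n => (n : ℝ) + 1
  have ha : ∀ n, 0 < a n := fun n => by positivity
  let Bn : ℕ → ℝ → ℝ := fun n r => B r * chi K (a n) r
  let Bn1 : ℕ → ℝ → ℝ := fun n r => B1 r * chi K (a n) r - B r * (K / (a n + r) * chi K (a n) r)
  have cchi : ∀ n, ContinuousOn (chi K (a n)) (Ioi 0) := fun n r hr =>
    (chi_der (ha n) hr).continuousAt.continuousWithinAt
  have hBn : ∀ n, C1 (Bn n) (Bn1 n) := by
    intro n
    refine ⟨fun r hr => ?_, ?_⟩
    · have := (hC1.der r hr).mul (chi_der (K := K) (ha n) hr)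
      refine this.congr_deriv ?_
      simp only [Bn1]
      ring
    · apply ContinuousOn.sub
      · exact hC1.cont.mul (cchi n)
      · apply (c1_contOn hC1).mul
        apply ContinuousOn.mul _ (cchi n)
        apply continuousOn_const.div (continuousOn_const.add continuousOn_id)
        intro r hr
        have h0 : 0 < r := hr
        have h00 := ha n
        exact (add_pos h00 h0).ne'
  -- pointwise bounds independent of `n`
  have q1 : ∀ n r, 0 < r → |Bn n r| ≤ |B r| := by
    intro n r hr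
    simp only [Bn]
    rw [abs_mul, abs_of_pos (chi_pos (ha n) hr)]
    exact mul_le_of_le_one_right (abs_nonneg _) (chi_le_one (ha n) hr)
  have hfrac : ∀ n r, 0 < r → r / (a n + r) ≤ 1 := by
    intro n r hr
    have := ha n
    rw [div_le_one (by positivity)]
    linarith
  have q2' : ∀ n r, 0 < r → |Bn1 n r| ≤
      (C' * (1 + r ^ M) + K * C * (1 + r ^ N)) * chi K (a n) r := by
    intro n r hr
    have hpos := chi_pos (K := K) (ha n) hr
    have han := ha n
    simp only [Bn1]
    have e : B1 r * chi K (a n) r - B r * (K / (a n + r) * chi K (a n) r) =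
        (B1 r - B r * (K / (a n + r))) * chi K (a n) r := by ring
    rw [e, abs_mul, abs_of_pos hpos]
    apply mul_le_mul_of_nonneg_right _ hpos.le
    have e1 : |B r * (K / (a n + r))| ≤ K * C * (1 + r ^ N) := by
      rw [abs_mul, abs_of_nonneg (show (0 : ℝ) ≤ K / (a n + r) by positivity)]
      calc |B r| * (K / (a n + r)) ≤ (C * r * (1 + r ^ N)) * (K / (a n + r)) :=
            mul_le_mul_of_nonneg_right (hB r hr) (by positivity)
        _ = K * C * (1 + r ^ N) * (r / (a n + r)) := by ring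
        _ ≤ K * C * (1 + r ^ N) * 1 :=
            mul_le_mul_of_nonneg_left (hfrac n r hr) (by positivity)
        _ = K * C * (1 + r ^ N) := mul_one _
    have := abs_sub_le_abs_add_abs' (B1 r) (B r * (K / (a n + r)))
    have := hCM r hr
    linarith
  have q2 : ∀ n r, 0 < r → |Bn1 n r| ≤ C' * (1 + r ^ M) + K * C * (1 + r ^ N) := by
    intro n r hr
    refine (q2' n r hr).trans ?_
    exact mul_le_of_le_one_right (by positivity) (chi_le_one (ha n) hr)
  -- bounds depending on `n`
  have hbd : ∀ n, ∃ D, ∀ r, 0 < r → |Bn n r| ≤ D ∧ |Bn n r| ≤ D * r ∧ |Bn1 n r| ≤ D := by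
    intro n
    have han := ha n
    have c0 : ∀ r, 0 < r → |Bn n r| ≤ C * (r * (1 + r ^ N)) * chi K (a n) r := by
      intro r hr
      simp only [Bn]
      rw [abs_mul, abs_of_pos (chi_pos (ha n) hr)]
      apply mul_le_mul_of_nonneg_right _ (chi_pos (ha n) hr).le
      have := hB r hr
      linarith
    let D1 := C * (a n + a n ^ (N + 1))
    let D2 := C * (1 + a n ^ N)
    let D3 := C' * (1 + a n ^ M) + K * C * (1 + a n ^ N)
    have hD1 : 0 ≤ D1 := by positivity
    have hD2 : 0 ≤ D2 := by positivity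
    have hD3 : 0 ≤ D3 := by positivity
    refine ⟨D1 + D2 + D3, fun r hr => ⟨?_, ?_, ?_⟩⟩
    · have g1 := pow_mul_chi (K := K) (j := 1) (by omega) (ha n) hr
      have g2 := pow_mul_chi (K := K) (j := N + 1) (by omega) (ha n) hr
      calc |Bn n r| ≤ C * (r * (1 + r ^ N)) * chi K (a n) r := c0 r hr
        _ = C * (r ^ 1 * chi K (a n) r + r ^ (N + 1) * chi K (a n) r) := by ring
        _ ≤ C * (a n ^ 1 + a n ^ (N + 1)) := by gcongr
        _ = D1 := by simp only [D1, pow_one]
        _ ≤ D1 + D2 + D3 := by linarith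
    · have g1 := chi_le_one (K := K) (ha n) hr
      have g2 := pow_mul_chi (K := K) (j := N) (by omega) (ha n) hr
      calc |Bn n r| ≤ C * (r * (1 + r ^ N)) * chi K (a n) r := c0 r hr
        _ = C * (chi K (a n) r + r ^ N * chi K (a n) r) * r := by ring
        _ ≤ C * (1 + a n ^ N) * r := by gcongr
        _ = D2 * r := rfl
        _ ≤ (D1 + D2 + D3) * r := by
            apply mul_le_mul_of_nonneg_right _ hr.le
            linarith
    · have g1 := chi_le_one (K := K) (ha n) hr
      have g2 := pow_mul_chi (K := K) (j := N) (by omega) (ha n) hr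
      have g3 := pow_mul_chi (K := K) (j := M) (by omega) (ha n) hr
      calc |Bn1 n r| ≤ (C' * (1 + r ^ M) + K * C * (1 + r ^ N)) * chi K (a n) r := q2' n r hr
        _ = C' * (chi K (a n) r + r ^ M * chi K (a n) r) +
            K * C * (chi K (a n) r + r ^ N * chi K (a n) r) := by ring
        _ ≤ C' * (1 + a n ^ M) + K * C * (1 + a n ^ N) := by gcongr
        _ = D3 := rfl
        _ ≤ D1 + D2 + D3 := by linarith
  have hid : ∀ n, ∫ x, Bn n ‖x‖ * ((lam + 1 / ‖x‖ - hartree u x) * ur u G x) =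
      (∫ x, (Bn1 n ‖x‖ / 2 - Bn n ‖x‖ / ‖x‖) * ‖dr G x‖ ^ 2)
        - ∫ x, Bn1 n ‖x‖ / 2 * (g2 G x - ‖dr G x‖ ^ 2) := by
    intro n
    obtain ⟨D, hD⟩ := hbd n
    exact h1 u lam G hs hu (Bn n) (Bn1 n) D (hBn n) hD
  -- pointwise convergence
  have l1 : ∀ r, Tendsto (fun n => Bn n r) atTop (𝓝 (B r)) := by
    intro r
    have := (chi_tendsto K r).const_mul (B r)
    rw [mul_one] at this
    exact this
  have l2 : ∀ r, Tendsto (fun n => Bn1 n r) atTop (𝓝 (B1 r)) := by
    intro r
    have t1 : Tendsto (fun n => a n + r) atTop atTop :=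
      tendsto_atTop_add_const_right _ _
        (tendsto_atTop_add_const_right _ _ tendsto_natCast_atTop_atTop)
    have t2 := (t1.const_div_atTop (K : ℝ)).mul (chi_tendsto K r)
    have t3 := ((chi_tendsto K r).const_mul (B1 r)).sub (t2.const_mul (B r))
    simpa using t3
  -- dominating functions
  let f1 : ℝ → ℝ := fun r => |B r| * (|lam| + 1 / r + H)
  have f1c : ContinuousOn f1 (Ioi 0) := by
    apply (c1_contOn hC1).abs.mul
    apply ContinuousOn.add _ continuousOn_const
    apply continuousOn_const.add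
    exact continuousOn_const.div continuousOn_id fun r hr => ne_of_gt hr
  have f1g : Gr1 f1 := by
    refine ⟨C * (2 + 2 * (|lam| + H)), N + 1, fun r hr => ?_⟩
    have e0 : 0 ≤ |lam| + H := by positivity
    have e1 : f1 r ≤ C * (r ^ 0 + r ^ N + (|lam| + H) * (r ^ 1 + r ^ (N + 1))) := by
      calc f1 r ≤ (C * r * (1 + r ^ N)) * (|lam| + 1 / r + H) :=
            mul_le_mul_of_nonneg_right (hB r hr) (by positivity)
        _ = C * (r ^ 0 + r ^ N + (|lam| + H) * (r ^ 1 + r ^ (N + 1))) := by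
            field_simp
            ring
    rw [abs_of_nonneg (show 0 ≤ f1 r by simp only [f1]; positivity)]
    refine e1.trans ?_
    have g0 := pow_le_gr1 (j := 0) (p := N + 1) (by omega) hr
    have g1 := pow_le_gr1 (j := N) (p := N + 1) (by omega) hr
    have g2 := pow_le_gr1 (j := 1) (p := N + 1) (by omega) hr
    have g3 := pow_le_gr1 (j := N + 1) (p := N + 1) le_rfl hr
    have e2 : (|lam| + H) * (r ^ 1 + r ^ (N + 1)) ≤ (|lam| + H) * (2 * (1 / r + r ^ (N + 1))) :=
      mul_le_mul_of_nonneg_left (by linarith) e0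
    calc C * (r ^ 0 + r ^ N + (|lam| + H) * (r ^ 1 + r ^ (N + 1)))
        ≤ C * ((1 / r + r ^ (N + 1)) + (1 / r + r ^ (N + 1))
          + (|lam| + H) * (2 * (1 / r + r ^ (N + 1)))) := by
          apply mul_le_mul_of_nonneg_left _ hC
          linarith
      _ = C * (2 + 2 * (|lam| + H)) * (1 / r + r ^ (N + 1)) := by ring
  let f2 : ℝ → ℝ := fun r => (C' * (1 + r ^ M) + K * C * (1 + r ^ N)) + C * (1 + r ^ N)
  have f2c : ContinuousOn f2 (Ioi 0) := by
    simp only [f2]
    fun_prop
  have f2g : Gr f2 := by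
    refine ⟨2 * (C' + K * C + C), M + N, fun r hr => ?_⟩
    rw [abs_of_nonneg (show 0 ≤ f2 r by simp only [f2]; positivity)]
    have g1 := pow_le_gr (j := N) (p := M + N) (by omega) hr
    have g2 := pow_le_gr (j := M) (p := M + N) (by omega) hr
    have g3 : 0 < r ^ (M + N) := by positivity
    calc f2 r ≤ (C' * (2 * (1 + r ^ (M + N))) + K * C * (2 * (1 + r ^ (M + N))))
          + C * (2 * (1 + r ^ (M + N))) := by
          simp only [f2]
          gcongr <;> linarith
      _ = 2 * (C' + K * C + C) * (1 + r ^ (M + N)) := by ring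
  have q3 : ∀ n r, 0 < r → |Bn1 n r / 2 - Bn n r / r| ≤ f2 r := by
    intro n r hr
    have e1 := q2 n r hr
    have e2 : |Bn n r / r| ≤ C * (1 + r ^ N) := by
      rw [abs_div, abs_of_pos hr, div_le_iff₀ hr]
      have := (q1 n r hr).trans (hB r hr)
      linarith
    have e3 : |Bn1 n r / 2| ≤ |Bn1 n r| := by
      rw [abs_div, abs_two]
      linarith [abs_nonneg (Bn1 n r)]
    have := abs_sub_le_abs_add_abs' (Bn1 n r / 2) (Bn n r / r)
    simp only [f2]
    linarith
  have q4 : ∀ n r, 0 < r → |Bn1 n r / 2| ≤ f2 r := by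
    intro n r hr
    have e1 := q2 n r hr
    have e3 : |Bn1 n r / 2| ≤ |Bn1 n r| := by
      rw [abs_div, abs_two]
      linarith [abs_nonneg (Bn1 n r)]
    have : 0 ≤ C * (1 + r ^ N) := by positivity
    simp only [f2]
    linarith
  have T1 : Tendsto (fun n => ∫ x, Bn n ‖x‖ * ((lam + 1 / ‖x‖ - hartree u x) * ur u G x)) atTop
      (𝓝 (∫ x, B ‖x‖ * ((lam + 1 / ‖x‖ - hartree u x) * ur u G x))) := by
    apply tendsto_integral_of_dominated_convergence (fun x => ‖f1 ‖x‖ * ur u G x‖)
    · intro n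
      apply (meas_rad (c1_contOn (hBn n))).mul
      apply AEStronglyMeasurable.mul _ (meas_ur hu)
      apply AEStronglyMeasurable.sub _ (cont_hartree h3 hu).aestronglyMeasurable
      exact (measurable_const.add (measurable_const.div measurable_norm)).aestronglyMeasurable
    · exact ((p1 f1 f1c f1g).2).norm
    · intro n
      filter_upwards [ae_pos] with x hx
      have e0 : ‖Bn n ‖x‖ * ((lam + 1 / ‖x‖ - hartree u x) * ur u G x)‖ =
          |Bn n ‖x‖| * |lam + 1 / ‖x‖ - hartree u x| * ‖ur u G x‖ := by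
        rw [Real.norm_eq_abs, abs_mul (Bn n ‖x‖), abs_mul (lam + 1 / ‖x‖ - hartree u x),
          Real.norm_eq_abs, mul_assoc]
      have e0' : ‖f1 ‖x‖ * ur u G x‖ = f1 ‖x‖ * ‖ur u G x‖ := by
        rw [norm_mul, Real.norm_eq_abs (f1 ‖x‖),
          abs_of_nonneg (show 0 ≤ f1 ‖x‖ by simp only [f1]; positivity)]
      rw [e0, e0']
      apply mul_le_mul_of_nonneg_right _ (norm_nonneg _)
      apply mul_le_mul (q1 n _ hx) _ (abs_nonneg _) (abs_nonneg _)
      have e1 := abs_sub_le_abs_add_abs' (lam + 1 / ‖x‖) (hartree u x)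
      have e2 := abs_add_le lam (1 / ‖x‖)
      have e3 : |1 / ‖x‖| = 1 / ‖x‖ := abs_of_nonneg (by positivity)
      have e4 := hH2 x
      linarith
    · filter_upwards with x
      exact (l1 ‖x‖).mul_const _
  have T2 : Tendsto (fun n => ∫ x, (Bn1 n ‖x‖ / 2 - Bn n ‖x‖ / ‖x‖) * ‖dr G x‖ ^ 2) atTop
      (𝓝 (∫ x, (B1 ‖x‖ / 2 - B ‖x‖ / ‖x‖) * ‖dr G x‖ ^ 2)) := by
    apply tendsto_integral_of_dominated_convergence (fun x => f2 ‖x‖ * ‖dr G x‖ ^ 2)
    · intro n
      apply AEStronglyMeasurable.mul _ ((meas_dr hu).norm.pow 2)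
      exact (meas_rad (w := fun r => Bn1 n r / 2) ((hBn n).cont.div_const 2)).sub
        (meas_rad (c1_contOn (c1_div (hBn n))))
    · exact (p2 f2 f2c f2g).2
    · intro n
      filter_upwards [ae_pos] with x hx
      rw [norm_mul, Real.norm_eq_abs, norm_pow, norm_norm]
      exact mul_le_mul_of_nonneg_right (q3 n _ hx) (by positivity)
    · filter_upwards with x
      exact (((l2 ‖x‖).div_const 2).sub ((l1 ‖x‖).div_const _)).mul_const _
  have T3 : Tendsto (fun n => ∫ x, Bn1 n ‖x‖ / 2 * (g2 G x - ‖dr G x‖ ^ 2)) atTop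
      (𝓝 (∫ x, B1 ‖x‖ / 2 * (g2 G x - ‖dr G x‖ ^ 2))) := by
    apply tendsto_integral_of_dominated_convergence (fun x => f2 ‖x‖ * g2 G x)
    · intro n
      apply AEStronglyMeasurable.mul
      · exact meas_rad (w := fun r => Bn1 n r / 2) ((hBn n).cont.div_const 2)
      · exact (meas_g2 hu).sub ((meas_dr hu).norm.pow 2)
    · exact (p2 f2 f2c f2g).1
    · intro n
      filter_upwards [ae_pos] with x hx
      have e1 := norm_dr_sq_le G x
      have e2 : 0 ≤ ‖dr G x‖ ^ 2 := by positivity
      rw [norm_mul, Real.norm_eq_abs, Real.norm_eq_abs, abs_of_nonneg (sub_nonneg.2 e1)]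
      apply mul_le_mul (q4 n _ hx) (by linarith) (sub_nonneg.2 e1)
      simp only [f2]
      positivity
    · filter_upwards with x
      exact ((l2 ‖x‖).div_const 2).mul_const _
  refine tendsto_nhds_unique T1 ?_
  simp_rw [hid]
  exact T2.sub T3

end Pool.Agent.H46.HN
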